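import Pool.Agent.Y26.HT.Iso

/-!
# MP_9803f8_al : infinitely many commensurability classes over one highly transitive group

For `m ≥ 2` let `P_m` be the group of the quadruples `(f, g, c, n)`, `f, g` Laurent polynomials over
`ℤ`, `c` in `ℤ/m`, `n` in `ℤ`, where `(f, g, c, 0)` is the Heisenberg group of the pairing
`(f, g) ↦` constant coefficient of `f(T) g(T⁻¹)` modulo `m` and `(0, 0, 0, 1)` is multiplication by
`T`; it is a central extension of `Q = ℤ² ≀ ℤ` by `ℤ/m`.  The group `H` consists of the permutations
of the set `Q` which differ from a translation by a finitely supported permutation, and `G_m` is the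
pullback of the extension `P_m` to `H`.  Every subgroup of finite index of `G_m` contains the
central subgroup `ℤ/m`, and the centraliser of every subgroup of finite index is this subgroup.
-/

namespace Pool.Agent.Results.MP_9803f8_al.InfinitelyManyExtensions

open Pool.Agent.H602R3.HT

universe u v

/-- There is one finitely generated highly transitive group `H` such that for every `m ≥ 2` there
is a finitely generated group `G m`, quasi-isometric to `H` (a central extension of `H` by the
cyclic group of order `m`), such that every group `K` commensurable to `G m` has a normal cyclic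
subgroup of order `m`, is not highly transitive, and has no faithful quasiprimitive action on any
set.  The groups `G m` are pairwise not commensurable. -/
theorem result : ∃ (H : Type) (_ : Group H) (G : ℕ → Type) (_ : ∀ m, Group (G m)),
    Group.FG H ∧ HighlyTransitive H ∧
    (∀ m, 2 ≤ m → Group.FG (G m) ∧ QuasiIsometric (G m) H ∧
      (∃ π : G m →* H, Function.Surjective π ∧ π.ker ≤ Subgroup.center (G m) ∧
        IsCyclic π.ker ∧ Nat.card π.ker = m) ∧
      ∀ (K : Type u) (_ : Group K), Commensurable (G m) K →
        (∃ C : Subgroup K, C.Normal ∧ IsCyclic C ∧ Nat.card C = m) ∧ ¬ HighlyTransitive K ∧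
        ∀ (Ω : Type v) (_ : MulAction K Ω), FaithfulSMul K Ω →
          ¬ MulAction.IsQuasiPreprimitive K Ω) ∧
    ∀ m n, 2 ≤ m → 2 ≤ n → Commensurable (G m) (G n) → m = n :=
  Pool.Agent.Y26.HT.main

end Pool.Agent.Results.MP_9803f8_al.InfinitelyManyExtensions
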